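import Pool.Agent.Run7.h612.SY.Cone

/-!
# Where can `Σ = Σ'` fail? Non-effective classes in the cone generated by the exceptional and the movable
classes of a hyperkähler manifold

Let `X` be a projective hyperkähler manifold with Picard number `ρ` and Beauville–Bogomolov form `b` (or
a normal projective variety with a form with the properties in `IsBBForm` and `IsAmpleClass`). Up to
multiples `Σ` is the cone `effCone` of the classes of the effective `ℚ`-divisors and `Σ'` is the cone
`genCone` of the classes `M + E`, `M` a rational class in the closure of the birational Kähler cone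
and `E` an effective `ℚ`-divisor with prime exceptional components. Let us call a class bad if it is a
nonzero isotropic class in the closure of the birational Kähler cone and is not effective.

1. The set of the classes of `genCone` which are not in `effCone` is the union of the cones
   `badCone M`, `M` bad, of the classes `t M + E`, `t > 0` and `E` an effective `ℚ`-divisor with
   components orthogonal to `M`.
2. A nonzero isotropic class `M` in the closure of the birational Kähler cone is bad if and only if
   the class `M` and the classes of the prime divisors orthogonal to `M` are linearly independent.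
3. If `M` is bad then there are at most `ρ - 2` prime divisors orthogonal to `M`, they are
   exceptional, and `t` and `E` are determined by the class `t M + E`. So `badCone M` is the simplicial
   cone spanned by `M` and these divisors, without the face opposite to `M`.
4. The cones of two bad classes are equal if the classes are proportional and disjoint otherwise.

So the classes of `Σ'` which have no multiple in `Σ` form a disjoint union of half-open simplicial cones,
one for every bad ray, of dimension at most `ρ - 1`.

`NormalModel`, `IsPrimeDivisor` and `Effective` are defined in `Pool.Agent.Y172.Defs`, `cls` in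
`Pool.Agent.N110.NV.Defs`, `IsBBForm` in `Pool.Agent.Run7.h701.HK.Defs`, the other definitions in
`Run7.h612.SY.Cone`.
-/

set_option autoImplicit false

open FF Pool.Agent.Y172 Pool.Agent.N110 Pool.Agent.Run7.h701 Run7.h612.SY

/-- Let `X` be a normal projective variety with generic point `y`, `b` a Beauville–Bogomolov form on
`Cl X ⊗ ℚ = ℚ ^ ρ` and `h` the class of an ample divisor, all classes in the positive cone being
effective. Then `genCone` is the union of the effective classes and of the cones `badCone M` of the bad
classes `M`, which are disjoint from `effCone`, half-open, simplicial, of dimension at most `ρ - 1`, and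
equal or disjoint; and bad classes are characterized by linear independence. -/
theorem Pool.Agent.Results.MP_2f6a4a_ag.NonEffectiveClasses.result
    {K : Type} [Field K] [Algebra ℂ K] {N ρ : ℕ} {y : Fin (N + 1) → K} (hy : NormalModel y)
    {c : Place ℂ K → Fin ρ → ℚ} {b : LinearMap.BilinForm ℚ (Fin ρ → ℚ)}
    (hb : HK.IsBBForm y c b) {h : Fin ρ → ℚ} (hh : IsAmpleClass y c b h) :
    (∀ w, (w ∈ genCone y c b h ∧ w ∉ effCone y c) ↔
      ∃ M, IsBadClass y c b h M ∧ w ∈ badCone y c b M) ∧
    (∀ M ∈ birCone y c b h, M ≠ 0 → b M M = 0 → (M ∉ effCone y c ↔
      LinearIndependent ℚ fun o : Option (orthPrimes y c b M) => o.elim M fun P => c P)) ∧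
    (∀ M, IsBadClass y c b h M →
      (orthPrimes y c b M).Finite ∧ (orthPrimes y c b M).ncard + 2 ≤ ρ ∧
      (∀ P ∈ orthPrimes y c b M, b (c P) (c P) < 0) ∧
      ∀ E E' : Place ℂ K → ℚ, Effective y E → Effective y E' →
        (∀ P, IsPrimeDivisor y P → E P ≠ 0 → P ∈ orthPrimes y c b M) →
        (∀ P, IsPrimeDivisor y P → E' P ≠ 0 → P ∈ orthPrimes y c b M) →
        ∀ t t' : ℚ, t • M + cls y c E = t' • M + cls y c E' →
          t = t' ∧ ∀ P, IsPrimeDivisor y P → E P = E' P) ∧
    (∀ M M', IsBadClass y c b h M → IsBadClass y c b h M' →
      ((∃ r : ℚ, 0 < r ∧ M' = r • M) → badCone y c b M = badCone y c b M') ∧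
      ((¬ ∃ r : ℚ, 0 < r ∧ M' = r • M) → Disjoint (badCone y c b M) (badCone y c b M'))) :=
  ⟨fun _ => gen_not_eff_iff hy hb hh, fun _ hM hM0 hMM => not_eff_iff_indep hy hb hh hM hM0 hMM,
    fun _ hM => ⟨(bad_indep hy hb hh hM).1, (bad_indep hy hb hh hM).2.1,
      (bad_indep hy hb hh hM).2.2.1, fun _ _ hE hE' hEo hEo' _ _ h1 =>
        bad_unique hy hb hh hM hE hE' hEo hEo' h1⟩,
    fun _ _ hM hM' => bad_dichotomy hb hh hM hM'⟩
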